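import Mathlib
import Pool.Agent.MP_2339ce_nt.DQ.AllX

namespace Pool.Agent.Results.MP_2339ce_nt.FourSmall

/-- A `D(n)`-quintuple: five distinct non-zero integers, the product of any two of which,
increased by `n`, is the square of an integer. -/
def IsDQuintuple (n : ℤ) (s : Finset ℤ) : Prop :=
  s.card = 5 ∧ (∀ a ∈ s, a ≠ 0) ∧ ∀ a ∈ s, ∀ b ∈ s, a ≠ b → IsSquare (a * b + n)

theorem result (n : ℤ) (hn : ¬ IsSquare n) (s : Finset ℤ) (hs : IsDQuintuple n s) :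
    ∀ a ∈ s, ∀ b ∈ s, a ≠ b → min |a| |b| ≤ (|n| + 1) ^ 10 ^ 15 :=
  Pool.Agent.MP_2339ce_nt.DQ.all_xfin n hn s hs.1 hs.2.1 hs.2.2

end Pool.Agent.Results.MP_2339ce_nt.FourSmall
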