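import Mathlib

namespace Pool.Agent.Results.MP_2339ce_nt.MixedSign

/-- A `D(n)`-quintuple: five distinct non-zero integers, the product of any two of which,
increased by `n`, is the square of an integer. -/
def IsDQuintuple (n : ℤ) (s : Finset ℤ) : Prop :=
  s.card = 5 ∧ (∀ a ∈ s, a ≠ 0) ∧ ∀ a ∈ s, ∀ b ∈ s, a ≠ b → IsSquare (a * b + n)

def step (m b r : ℕ) : ℕ :=
  cond (Nat.ble (Nat.mul (Nat.add r b) (Nat.add r b)) m) (Nat.add r b) r

def rt (m : ℕ) : ℕ :=
  step m 1 (step m 2 (step m 4 (step m 8 (step m 16 (step m 32 (step m 64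
    (step m 128 (step m 256 0))))))))

def bit (c q m : ℕ) : Bool := Nat.beq (Nat.land (Nat.shiftRight c (Nat.mod m q)) 1) 1

def sqb (m : ℕ) : Bool :=
  cond (bit 288872697407275667 63 m) (cond (bit 144680414395695635 64 m)
    (cond (bit 20863489977805260307 65 m) (Nat.beq (Nat.mul (rt m) (rt m)) m) false) false) false

def allLt (f : ℕ → Bool) (k : ℕ) : Bool := Nat.rec true (fun i ih => cond (f i) ih false) k

def LL (n u k : ℕ) : List ℕ :=
  Nat.rec [] (fun r ih =>
    cond (Nat.ble n (Nat.mul r r)) ih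
      (cond (Nat.beq (Nat.mod (Nat.sub n (Nat.mul r r)) u) 0)
        (Nat.div (Nat.sub n (Nat.mul r r)) u :: ih) ih)) k

def L (n u : ℕ) : List ℕ := LL n u 20

def ok (n x y : ℕ) : Bool := !(Nat.beq x y) && sqb (Nat.add (Nat.mul x y) n)

def op (n x y : ℕ) : Bool := Nat.ble (Nat.mul x y) n && sqb (Nat.sub n (Nat.mul x y))

def chk (n u : ℕ) : Bool :=
  (L n u).all fun x => (L n u).all fun y => !(ok n x y) || (L n u).all fun z =>
    !(ok n x z) || !(ok n y z) ||
      (((L n u).all fun w => !(ok n x w) || !(ok n y w) || !(ok n z w)) &&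
       ((L n x).all fun w => !(ok n u w) || !(op n w y) || !(op n w z)))

def chkN (n : ℕ) : Bool := allLt (fun u => Nat.beq u 0 || chk n u) (Nat.succ (Nat.div n 3))

theorem allLt_spec (f : ℕ → Bool) (k : ℕ) (h : allLt f k = true) (i : ℕ) (hi : i < k) :
    f i = true := by
  induction k with
  | zero => omega
  | succ k ih =>
    have h2 : cond (f k) (allLt f k) false = true := h
    cases h3 : f k
    · rw [h3] at h2; exact absurd h2 (by simp)
    · rw [h3] at h2
      rcases Nat.lt_succ_iff_lt_or_eq.1 hi with h4 | h4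
      · exact ih h2 h4
      · rw [h4, h3]

theorem mem_LL (n u r k : ℕ) (hr : r < k) (h1 : r * r < n) (h2 : (n - r * r) % u = 0) :
    (n - r * r) / u ∈ LL n u k := by
  induction k with
  | zero => omega
  | succ k ih =>
    have e : LL n u (k + 1) = cond (Nat.ble n (k * k)) (LL n u k)
      (cond (Nat.beq ((n - k * k) % u) 0) ((n - k * k) / u :: LL n u k) (LL n u k)) := rfl
    rw [e]
    rcases Nat.lt_succ_iff_lt_or_eq.1 hr with h4 | h4
    · have := ih h4
      cases Nat.ble n (k * k) <;> cases Nat.beq ((n - k * k) % u) 0 <;> simp [this]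
    · subst h4
      have h5 : Nat.ble n (r * r) = false := by
        cases h6 : Nat.ble n (r * r)
        · rfl
        · exact absurd (Nat.le_of_ble_eq_true h6) (by omega)
      rw [h5, h2]
      simp

theorem sqb_all : allLt (fun k => sqb (Nat.mul k k)) 400 = true := by decide +kernel

theorem chk_0 : allLt (fun n => Nat.blt n 0 || chkN n) 150 = true := by
  decide +kernel

theorem chk_1 : allLt (fun n => Nat.blt n 150 || chkN n) 220 = true := by
  decide +kernel

theorem chk_2 : allLt (fun n => Nat.blt n 220 || chkN n) 270 = true := by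
  decide +kernel

theorem chk_3 : allLt (fun n => Nat.blt n 270 || chkN n) 310 = true := by
  decide +kernel

theorem chk_4 : allLt (fun n => Nat.blt n 310 || chkN n) 345 = true := by
  decide +kernel

theorem chk_5 : allLt (fun n => Nat.blt n 345 || chkN n) 375 = true := by
  decide +kernel

theorem chk_6 : allLt (fun n => Nat.blt n 375 || chkN n) 400 = true := by
  decide +kernel

theorem chk_all (n : ℕ) (hn : n < 400) : chkN n = true := by
  have key : ∀ c d, allLt (fun n => Nat.blt n c || chkN n) d = true → c ≤ n → n < d →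
      chkN n = true := by
    intro c d h h1 h2
    have h3 := allLt_spec _ _ h n h2
    simp only [Bool.or_eq_true, Nat.blt_eq] at h3
    rcases h3 with h3 | h3
    · omega
    · exact h3
  by_cases h0 : n < 150
  · exact key _ _ chk_0 (by omega) (by omega)
  by_cases h1 : n < 220
  · exact key _ _ chk_1 (by omega) (by omega)
  by_cases h2 : n < 270
  · exact key _ _ chk_2 (by omega) (by omega)
  by_cases h3 : n < 310
  · exact key _ _ chk_3 (by omega) (by omega)
  by_cases h4 : n < 345
  · exact key _ _ chk_4 (by omega) (by omega)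
  by_cases h5 : n < 375
  · exact key _ _ chk_5 (by omega) (by omega)
  exact key _ _ chk_6 (by omega) (by omega)

theorem sqb_of (m : ℕ) (hm : m < 160000) (h : IsSquare (m : ℤ)) : sqb m = true := by
  obtain ⟨k, hk⟩ := h
  have h1 : m = k.natAbs * k.natAbs := by
    have := congrArg Int.natAbs hk
    simpa [Int.natAbs_mul] using this
  have h2 : k.natAbs < 400 := by nlinarith
  have := allLt_spec _ _ sqb_all k.natAbs h2
  rw [h1]; exact this

theorem mem_L (n u x : ℕ) (hn : n < 400) (hu : 0 < u) (hx : 0 < x)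
    (h : IsSquare (-(u : ℤ) * x + n)) : x ∈ L n u ∧ u * x ≤ n := by
  obtain ⟨k, hk⟩ := h
  have h1 : n = k.natAbs * k.natAbs + u * x := by
    have : (n : ℤ) = (k.natAbs : ℤ) * k.natAbs + u * x := by
      rw [Int.natAbs_mul_self']; linarith
    exact_mod_cast this
  have hp : 0 < u * x := Nat.mul_pos hu hx
  have h2 : k.natAbs < 20 := by nlinarith
  refine ⟨?_, by omega⟩
  have h3 : n - k.natAbs * k.natAbs = u * x := by omega
  have h4 := mem_LL n u k.natAbs 20 h2 (by omega) (by rw [h3]; simp)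
  rwa [h3, Nat.mul_div_cancel_left _ hu] at h4

theorem ok_of (n x y : ℕ) (hn : n < 400) (hx : x ≤ n) (hy : y ≤ n) (hxy : x ≠ y)
    (h : IsSquare ((x : ℤ) * y + n)) : ok n x y = true := by
  have : sqb (x * y + n) = true := sqb_of _ (by nlinarith) (by exact_mod_cast h)
  have h2 : Nat.beq x y = false := by
    cases h3 : Nat.beq x y
    · rfl
    · exact absurd (Nat.eq_of_beq_eq_true h3) hxy
  have h4 : ok n x y = (!(Nat.beq x y) && sqb (x * y + n)) := rfl
  rw [h4, this, h2]; rfl

theorem op_of (n x y : ℕ) (hn : n < 400) (hxy : x * y ≤ n)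
    (h : IsSquare (-(x : ℤ) * y + n)) : op n x y = true := by
  have : sqb (n - x * y) = true := sqb_of _ (by omega) (by
    rw [Nat.cast_sub hxy]; push_cast; convert h using 1; ring)
  have h4 : op n x y = (Nat.ble (x * y) n && sqb (n - x * y)) := rfl
  rw [h4, this, Nat.ble_eq_true_of_le hxy]; rfl

theorem core (n : ℤ) (hn : n < 400) (s : Finset ℤ) (hs : IsDQuintuple n s) (a : ℤ) (ha : a ∈ s)
    (ha0 : a < 0) (h3 : 2 < (s.filter fun t => 0 < t).card) : False := by
  obtain ⟨hc, h0, hsq⟩ := hs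
  obtain ⟨x, hx, y, hy, z, hz, hxy, hxz, hyz⟩ := Finset.two_lt_card.1 h3
  simp only [Finset.mem_filter] at hx hy hz
  obtain ⟨w, hw, hw'⟩ : ∃ w ∈ s, w ∉ ({a, x, y, z} : Finset ℤ) := by
    by_contra hcon
    push Not at hcon
    have := Finset.card_le_card (show s ⊆ {a, x, y, z} from hcon)
    have h4 : ({a, x, y, z} : Finset ℤ).card ≤ 4 := Finset.card_le_four
    omega
  simp only [Finset.mem_insert, Finset.mem_singleton, not_or] at hw'
  obtain ⟨hwa, hwx, hwy, hwz⟩ := hw'
  obtain ⟨u, rfl⟩ : ∃ u : ℕ, a = -u := ⟨a.natAbs, by omega⟩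
  lift x to ℕ using hx.2.le
  lift y to ℕ using hy.2.le
  lift z to ℕ using hz.2.le
  have hu : 0 < u := by omega
  have hx0 : 0 < x := by omega
  have hy0 : 0 < y := by omega
  have hz0 : 0 < z := by omega
  have hn0 : 0 ≤ n := by
    obtain ⟨k, hk⟩ := hsq _ ha _ hx.1 (by omega)
    nlinarith [mul_self_nonneg k, mul_pos (show (0 : ℤ) < u by omega) hx.2]
  lift n to ℕ using hn0
  have hn' : n < 400 := by omega
  obtain ⟨mx, bx⟩ := mem_L n u x hn' hu hx0 (hsq _ ha _ hx.1 (by omega))
  obtain ⟨my, by'⟩ := mem_L n u y hn' hu hy0 (hsq _ ha _ hy.1 (by omega))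
  obtain ⟨mz, bz⟩ := mem_L n u z hn' hu hz0 (hsq _ ha _ hz.1 (by omega))
  have hxn : x ≤ n := by nlinarith
  have hyn : y ≤ n := by nlinarith
  have hzn : z ≤ n := by nlinarith
  have hun : u ≤ n := by nlinarith
  have hu3 : u < n / 3 + 1 := by
    have h33 : 3 ≤ x ∨ 3 ≤ y ∨ 3 ≤ z := by omega
    have : u * 3 ≤ n := by rcases h33 with h | h | h <;> nlinarith
    omega
  have hchk : chk n u = true := by
    have h1 := chk_all n hn'
    have h2 := allLt_spec _ _ h1 u hu3
    simp only [Bool.or_eq_true, Nat.beq_eq] at h2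
    rcases h2 with h2 | h2
    · omega
    · exact h2
  have oxy := ok_of n x y hn' hxn hyn (by omega) (hsq _ hx.1 _ hy.1 hxy)
  have oxz := ok_of n x z hn' hxn hzn (by omega) (hsq _ hx.1 _ hz.1 hxz)
  have oyz := ok_of n y z hn' hyn hzn (by omega) (hsq _ hy.1 _ hz.1 hyz)
  have h1 := List.all_eq_true.1 (List.all_eq_true.1 hchk x mx) y my
  simp only [oxy, Bool.not_true, Bool.false_or] at h1
  have h2 := List.all_eq_true.1 h1 z mz
  simp only [oxz, oyz, Bool.not_true, Bool.false_or, Bool.and_eq_true] at h2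
  rcases lt_or_gt_of_ne (h0 w hw) with hneg | hpos
  · obtain ⟨v, rfl⟩ : ∃ v : ℕ, w = -v := ⟨w.natAbs, by omega⟩
    have hv : 0 < v := by omega
    have sx := hsq _ hw _ hx.1 hwx
    have sy := hsq _ hw _ hy.1 hwy
    have sz := hsq _ hw _ hz.1 hwz
    obtain ⟨mv, bv⟩ := mem_L n x v hn' hx0 hv (by convert sx using 1; ring)
    have hvn : v ≤ n := by nlinarith
    have o1 := ok_of n u v hn' hun hvn (by omega)
      (by convert hsq _ ha _ hw (Ne.symm hwa) using 1; ring)
    have o2 := op_of n v y hn' (mem_L n v y hn' hv hy0 sy).2 sy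
    have o3 := op_of n v z hn' (mem_L n v z hn' hv hz0 sz).2 sz
    have h3 := List.all_eq_true.1 h2.2 v mv
    simp [o1, o2, o3] at h3
  · lift w to ℕ using hpos.le
    have hw0 : 0 < w := by omega
    obtain ⟨mw, bw⟩ := mem_L n u w hn' hu hw0 (hsq _ ha _ hw (Ne.symm hwa))
    have hwn : w ≤ n := by nlinarith
    have o1 := ok_of n x w hn' hxn hwn (by omega) (hsq _ hx.1 _ hw (Ne.symm hwx))
    have o2 := ok_of n y w hn' hyn hwn (by omega) (hsq _ hy.1 _ hw (Ne.symm hwy))
    have o3 := ok_of n z w hn' hzn hwn (by omega) (hsq _ hz.1 _ hw (Ne.symm hwz))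
    have h3 := List.all_eq_true.1 h2.1 w mw
    simp [o1, o2, o3] at h3

theorem result :
    IsLeast {n : ℤ | ∃ s : Finset ℤ, IsDQuintuple n s ∧ (∃ a ∈ s, a < 0) ∧ ∃ b ∈ s, 0 < b} 400 := by
  constructor
  · refine ⟨{-1, 39, 175, 300, 384}, ⟨by decide, by decide, ?_⟩, ⟨-1, by decide, by decide⟩,
      ⟨39, by decide, by decide⟩⟩
    intro a ha b hb hab
    simp only [Finset.mem_insert, Finset.mem_singleton] at ha hb
    rcases ha with rfl | rfl | rfl | rfl | rfl <;> rcases hb with rfl | rfl | rfl | rfl | rfl <;>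
      first
        | exact absurd rfl hab
        | (refine ⟨19, ?_⟩; decide) | (refine ⟨15, ?_⟩; decide) | (refine ⟨10, ?_⟩; decide)
        | (refine ⟨4, ?_⟩; decide) | (refine ⟨85, ?_⟩; decide) | (refine ⟨110, ?_⟩; decide)
        | (refine ⟨124, ?_⟩; decide) | (refine ⟨230, ?_⟩; decide) | (refine ⟨260, ?_⟩; decide)
        | (refine ⟨340, ?_⟩; decide)
  · rintro n ⟨s, hs, ⟨a, ha, ha0⟩, ⟨b, hb, hb0⟩⟩
    by_contra hn
    push Not at hn
    by_cases h3 : 2 < (s.filter fun t => 0 < t).card
    · exact core n hn s hs a ha ha0 h3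
    · have hs' : IsDQuintuple n (s.image Neg.neg) := by
        refine ⟨by rw [Finset.card_image_of_injective _ neg_injective]; exact hs.1, ?_, ?_⟩
        · intro x hx
          obtain ⟨y, hy, rfl⟩ := Finset.mem_image.1 hx
          exact neg_ne_zero.2 (hs.2.1 y hy)
        · intro x hx x' hx' hne
          obtain ⟨y, hy, rfl⟩ := Finset.mem_image.1 hx
          obtain ⟨y', hy', rfl⟩ := Finset.mem_image.1 hx'
          rw [neg_mul_neg]
          exact hs.2.2 y hy y' hy' (fun h => hne (by rw [h]))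
      refine core n hn _ hs' (-b) (Finset.mem_image_of_mem _ hb) (by omega) ?_
      have h5 := Finset.card_filter_add_card_filter_not (s := s) (fun t => 0 < t)
      have h6 : ((s.filter fun t => ¬ 0 < t).image Neg.neg) ⊆
          (s.image Neg.neg).filter fun t => 0 < t := by
        intro x hx
        obtain ⟨y, hy, rfl⟩ := Finset.mem_image.1 hx
        rw [Finset.mem_filter] at hy ⊢
        have := hs.2.1 y hy.1
        exact ⟨Finset.mem_image_of_mem _ hy.1, by omega⟩
      have h7 := Finset.card_le_card h6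
      rw [Finset.card_image_of_injective _ neg_injective] at h7
      have := hs.1
      omega

end Pool.Agent.Results.MP_2339ce_nt.MixedSign
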