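import Mathlib
import Pool.Agent.MP_2339ce_nt.Q2.All

namespace Pool.Agent.Results.MP_2339ce_nt.NegativeExtreme

/-- A `D(n)`-quintuple: five distinct non-zero integers, the product of any two of which,
increased by `n`, is the square of an integer. -/
def IsDQuintuple (n : ℤ) (s : Finset ℤ) : Prop :=
  s.card = 5 ∧ (∀ a ∈ s, a ≠ 0) ∧ ∀ a ∈ s, ∀ b ∈ s, a ≠ b → IsSquare (a * b + n)

/-- The largest negative integer `n` with a `D(n)`-quintuple is `-255`. -/
theorem result : IsGreatest {n : ℤ | n ≤ -1 ∧ ∃ s : Finset ℤ, IsDQuintuple n s} (-255) :=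
  Pool.Agent.MP_2339ce_nt.Q2.Top.main

end Pool.Agent.Results.MP_2339ce_nt.NegativeExtreme
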